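import Pool.Agent.H.MP_8df5c2_pr.A

namespace Pool.Agent.Results.MP_8df5c2_pr.Bounded

open MeasureTheory
open scoped ENNReal

def box (d k : ℕ) : Set (Fin d → ℤ) := {x | ∀ i, -2 ^ k ≤ x i ∧ x i < 2 ^ k}

def shell (d : ℕ) : ℕ → Set (Fin d → ℤ)
  | 0 => box d 0
  | k + 1 => box d (k + 1) \ box d k

def dyadic {d : ℕ} (q : ℕ × (Fin d → ℤ)) : Set (Fin d → ℤ) :=
  {x | ∀ i, q.2 i * 2 ^ q.1 ≤ x i ∧ x i < (q.2 i + 1) * 2 ^ q.1}

noncomputable def content {d : ℕ} (γ : ℝ) (A : Set (Fin d → ℤ)) (k : ℕ) : ℝ≥0∞ :=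
  ⨅ (s : Finset (ℕ × (Fin d → ℤ))) (_ : A ∩ shell d k ⊆ ⋃ q ∈ s, dyadic q),
    ∑ q ∈ s, ENNReal.ofReal (2 ^ (γ * ((q.1 : ℝ) - k - 1)))

noncomputable def Dim {d : ℕ} (A : Set (Fin d → ℤ)) : ℝ≥0∞ :=
  ⨅ (γ : ℝ) (_ : 0 < γ) (_ : ∑' k, content γ A (k + 1) < ∞), ENNReal.ofReal γ

noncomputable def green {d : ℕ} (ν : Measure (Fin d → ℤ)) (x : Fin d → ℤ) : ℝ≥0∞ :=
  ∑' n : ℕ, Measure.infinitePi (fun _ : ℕ => ν) {ω | ∑ i ∈ Finset.range n, ω i = x}

noncomputable def len {d : ℕ} (x : Fin d → ℤ) : ℝ := √(∑ i, (x i : ℝ) ^ 2)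

open Pool.Agent.H.MP_8df5c2_pr Finset

lemma bounds {d : ℕ} {α a b : ℝ} (ha : 0 < a) (hd : α < d) {f : (Fin d → ℤ) → ℝ≥0∞}
    (h0 : f 0 < ∞) (h1 : 1 ≤ f 0) (hg : ∀ x ≠ 0, .ofReal (a * len x ^ (α - d)) ≤ f x ∧
      f x ≤ .ofReal (b * len x ^ (α - d))) : ∃ c : ℝ, (∀ x, f x ≤ e (c + (α - d) * lv x)) ∧
      ∀ l, ∀ x ∈ ball d l, e (-c + (α - d) * l) ≤ f x := by
  obtain ⟨c₀, p₀, q₀⟩ := e_big h0.ne
  obtain ⟨c₁, p₁, q₁⟩ := e_big (ENNReal.ofReal_ne_top (r := b))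
  obtain ⟨c₂, p₂, q₂⟩ := e_big (ENNReal.inv_ne_top.mpr (ENNReal.ofReal_pos.mpr ha).ne')
  have n : α - d < 0 := by linarith
  have d0 : (0 : ℝ) ≤ d := d.cast_nonneg
  have le : ∀ (x : Fin d → ℤ) i, |(x i : ℝ)| ≤ len x := fun x i => Real.abs_le_sqrt
    (single_le_sum (f := fun i => (x i : ℝ) ^ 2) (fun _ _ => sq_nonneg _) (mem_univ i))
  refine ⟨c₀ + c₁ + c₂ + (d - α) * (d + 1), fun x => ?_, fun l x hx => ?_⟩
  · rcases hs : lv x with _ | s
    · obtain rfl : x = 0 := funext fun i => by simpa using mem_ball.mp (lv_le.mp hs.le) i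
      exact q₀.trans (e_mono (by push_cast; nlinarith))
    · obtain ⟨i, hi⟩ : ∃ i, 2 ^ s ≤ |x i| := by
        by_contra! k
        have := lv_le.mpr (mem_ball.mpr k); omega
      have hi' : (2 : ℝ) ^ (s : ℝ) ≤ len x := by
        rw [Real.rpow_natCast]; exact le_trans (by exact_mod_cast hi) (le x i)
      refine (hg x fun e => by simp [e] at hi; linarith [pow_pos (two_pos (α := ℤ)) s]).2.trans ?_
      rw [ENNReal.ofReal_mul' (Real.rpow_nonneg (show 0 ≤ len x from Real.sqrt_nonneg _) _)]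
      refine (mul_le_mul' q₁ (ENNReal.ofReal_le_ofReal (Real.rpow_le_rpow_of_nonpos (by positivity)
        hi' n.le))).trans ?_
      rw [← Real.rpow_mul two_pos.le, ← e_eq, ← e_add]
      exact e_mono (by push_cast; nlinarith)
  · by_cases h : x = 0
    · rw [h]
      refine le_trans ((e_mono ?_).trans_eq e_zero) h1
      nlinarith [mul_nonneg (neg_pos.mpr n).le (l.cast_nonneg (α := ℝ))]
    · obtain ⟨i, hi⟩ := Function.ne_iff.mp h
      have p : 0 < len x := (abs_pos.mpr (by exact_mod_cast hi)).trans_le (le x i)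
      have u : len x ≤ (2 : ℝ) ^ ((d + l : ℕ) : ℝ) := by
        rw [Real.rpow_natCast]
        refine Real.sqrt_le_iff.mpr ⟨by positivity, (sum_le_card_nsmul _ _ ((2 ^ l) ^ 2)
          fun i _ => ?_).trans ?_⟩
        · exact sq_le_sq' (by exact_mod_cast (abs_lt.mp (mem_ball.mp hx i)).1.le)
            (by exact_mod_cast (abs_lt.mp (mem_ball.mp hx i)).2.le)
        · rw [nsmul_eq_mul, card_univ, Fintype.card_fin, pow_add, mul_pow]
          have : (d : ℝ) ≤ 2 ^ d := by exact_mod_cast Nat.lt_two_pow_self.le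
          gcongr
          nlinarith [one_le_pow₀ (one_le_two (α := ℝ)) (n := d)]
      refine le_trans ?_ (hg x h).1
      rw [ENNReal.ofReal_mul ha.le]
      refine le_trans ?_ (mul_le_mul' (ENNReal.inv_le_iff_inv_le.mp q₂) (ENNReal.ofReal_le_ofReal
        (Real.rpow_le_rpow_of_nonpos p u n.le)))
      rw [← Real.rpow_mul two_pos.le, ← e_eq, show (e c₂)⁻¹ = e (-c₂) from (ENNReal.rpow_neg _ _).symm,
        ← e_add]
      exact e_mono (by push_cast; nlinarith)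

theorem result (d N : ℕ) (hN : 1 ≤ N) (α a b : ℝ) (hα : 0 < α) (ha : 0 < a) (hd : α * N < d)
    (ν : Measure (Fin d → ℤ)) [IsProbabilityMeasure ν] (h0 : green ν 0 < ∞)
    (hg : ∀ x, x ≠ 0 → ENNReal.ofReal (a * len x ^ (α - d)) ≤ green ν x ∧
      green ν x ≤ ENNReal.ofReal (b * len x ^ (α - d)))
    (A : Set (Fin d → ℤ)) (hA : Dim A < ENNReal.ofReal (d - α * N)) :
    ∀ᵐ ω ∂(Measure.pi fun _ : Fin N => Measure.infinitePi fun _ : ℕ => ν),
      (A ∩ {x | ∃ n : Fin N → ℕ, x = ∑ j, ∑ i ∈ Finset.range (n j), ω j i}).Finite := by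
  have n1 : (1 : ℝ) ≤ N := by exact_mod_cast hN
  obtain ⟨c, h1, h2⟩ := bounds (f := g ν) ha (by nlinarith) h0 (g_zero ν) hg
  obtain ⟨C, hC⟩ := hitQ ν hα h1 h2 hN hd
  simp only [Dim, iInf_lt_iff] at hA
  obtain ⟨γ, g0, g1, g2⟩ := hA
  have g3 := ((ENNReal.ofReal_lt_ofReal_iff_of_nonneg g0.le).mp g2).le
  let E : ℕ → Set (Fin N → ℕ → Fin d → ℤ) := fun k =>
    {ω | ∃ n : Fin N → ℕ, ∑ j, X (n j) (ω j) ∈ A ∩ shell d (k + 1)}
  have t : ∀ x, e x ≠ ∞ := fun x => by rw [e_eq]; exact ENNReal.ofReal_ne_top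
  have key : ∀ k, Measure.pi (fun _ : Fin N => P ν) (E k) ≤ e (C + γ * 2) * content γ A (k + 1) :=
    fun k => by
      unfold content
      have z : e (C + γ * 2) ≠ 0 := by rw [e_eq]; exact (ENNReal.ofReal_pos.mpr (by positivity)).ne'
      simp only [ENNReal.mul_iInf_of_ne z (t _), le_iInf_iff]
      intro s hs
      refine (measure_mono (t := ⋃ q ∈ s, {ω : Fin N → ℕ → Fin d → ℤ | ∃ n : Fin N → ℕ,
        ∑ j, X (n j) (ω j) ∈ dyadic q ∩ shell d (k + 1)}) fun ω hω => ?_).trans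
          ((measure_biUnion_finset_le _ _).trans ?_)
      · obtain ⟨n, hn⟩ := hω
        obtain ⟨q, hq, h⟩ := Set.mem_iUnion₂.mp (hs hn)
        exact Set.mem_biUnion hq ⟨n, h, hn.2⟩
      rw [mul_sum]
      refine sum_le_sum fun q _ => ?_
      rcases (dyadic q ∩ shell d (k + 1)).eq_empty_or_nonempty with h | ⟨x, h, -, h'⟩
      · simp [h]
      refine (measure_mono fun ω h => h.imp fun n hn => mem_cube.mpr hn.1).trans ((hC γ g0 g3 k q.1 q.2 x
        (mem_cube.mpr h) fun f => h' fun i => ?_).trans_eq ?_)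
      · exact (abs_lt.mp (mem_ball.mp f i)).imp_left le_of_lt
      · rw [← e_eq, ← e_add, ← e_add]; congr 1; push_cast; ring
  filter_upwards [ae_finite_setOfPred_mem (ne_top_of_le_ne_top (by
    rw [ENNReal.tsum_mul_left]; exact ENNReal.mul_ne_top (t _) g1.ne) (ENNReal.tsum_le_tsum key))]
    with ω hω
  obtain ⟨m, hm⟩ := hω.bddAbove
  refine (ball d (m + 2)).finite_toSet.subset fun x ⟨hx, n, hn⟩ => mem_ball.mpr fun i => ?_
  have ex : ∃ k, x ∈ box d k :=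
    (ex_ball x).imp fun s h i => (abs_lt.mp (mem_ball.mp h i)).imp_left le_of_lt
  classical
  have l : Nat.find ex ≤ m + 1 := by
    rcases e : Nat.find ex with _ | k
    · omega
    · exact Nat.succ_le_succ (hm ⟨n, (show ∑ j, X (n j) (ω j) = x from hn.symm) ▸
        ⟨hx, e ▸ Nat.find_spec ex, Nat.find_min ex (by omega)⟩⟩)
  have := Nat.find_spec ex i
  have := pow_lt_pow_right₀ (one_lt_two (α := ℤ)) (show _ < m + 2 from Nat.lt_succ_of_le l)
  rw [abs_lt]; constructor <;> linarith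

end Pool.Agent.Results.MP_8df5c2_pr.Bounded
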